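import Mathlib

/-!
Skew-symmetric linear `(2,p,p)` all-or-nothing transforms exist for every prime `p`.

The matrix has rows and columns indexed by `0, 1, ..., p - 1`; its entries are `0` on the diagonal,
`1` elsewhere in row `0` and in column `0`, and `x / (x - y)` in row `x` and column `y` otherwise.
-/

set_option autoImplicit false

namespace Pool.Agent.Results.MP_6c8620_co.EveryPrime

/-- A linear `(2,s,q)`-AONT: an invertible `s × s` matrix over a field (with `q` elements) all of whose
`2 × 2` submatrices (two distinct rows, two distinct columns) are invertible. -/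
def IsAONT {F : Type} [Field F] {s : ℕ} (M : Matrix (Fin s) (Fin s) F) : Prop :=
  IsUnit M ∧ ∀ i k : Fin s, i ≠ k → ∀ j l : Fin s, j ≠ l →
    IsUnit (M.submatrix ![i, k] ![j, l])

/-- Type `p` standard form: every diagonal entry is `0`, and every other entry of the first row
and of the first column is `1`. -/
def StandardForm {F : Type} [Field F] {s : ℕ} [NeZero s] (M : Matrix (Fin s) (Fin s) F) : Prop :=
  (∀ i, M i i = 0) ∧ (∀ j, j ≠ 0 → M 0 j = 1) ∧ (∀ i, i ≠ 0 → M i 0 = 1)

/-- `τ`-skew-symmetric: `m_ij + m_ji = τ` for all distinct indices `i`, `j` other than the first. -/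
def SkewSymmetric {F : Type} [Field F] {s : ℕ} [NeZero s] (τ : F)
    (M : Matrix (Fin s) (Fin s) F) : Prop :=
  ∀ i j, i ≠ 0 → j ≠ 0 → i ≠ j → M i j + M j i = τ

/-- There is a skew-symmetric linear `(2,p,p)`-AONT: a linear `(2,p,p)`-AONT in type `p` standard
form that is `τ`-skew-symmetric for some `τ`. -/
def Exists (p : ℕ) [Fact p.Prime] : Prop :=
  haveI : NeZero p := ⟨(Fact.out : p.Prime).ne_zero⟩
  ∃ M : Matrix (Fin p) (Fin p) (ZMod p), IsAONT M ∧ StandardForm M ∧
    ∃ τ : ZMod p, SkewSymmetric τ M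

section proof

variable {p : ℕ} [Fact p.Prime]

/-- the matrix, indexed by the field itself -/
noncomputable def A (x y : ZMod p) : ZMod p :=
  if x = 0 then (if y = 0 then 0 else 1) else if y = 0 then 1 else x / (x - y)

theorem A_diag (x : ZMod p) : A x x = 0 := by
  unfold A; split_ifs <;> simp

theorem A_zero_left {y : ZMod p} (hy : y ≠ 0) : A 0 y = 1 := by
  unfold A; simp [hy]

theorem A_zero_right {x : ZMod p} (hx : x ≠ 0) : A x 0 = 1 := by
  unfold A; simp [hx]

theorem A_of_ne {x y : ZMod p} (hx : x ≠ 0) (hy : y ≠ 0) : A x y = x / (x - y) := by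
  unfold A; simp [hx, hy]

theorem A_skew {x y : ZMod p} (hx : x ≠ 0) (hy : y ≠ 0) (h : x ≠ y) : A x y + A y x = 1 := by
  rw [A_of_ne hx hy, A_of_ne hy hx]
  have h1 : x - y ≠ 0 := sub_ne_zero.2 h
  have h2 : y - x ≠ 0 := sub_ne_zero.2 h.symm
  field_simp
  ring

theorem A_ne_zero {x y : ZMod p} (h : x ≠ y) : A x y ≠ 0 := by
  unfold A
  by_cases hx : x = 0
  · have hy : y ≠ 0 := fun h' => h (hx.trans h'.symm)
    simp [hx, hy]
  · by_cases hy : y = 0
    · simp [hx, hy]
    · simp [hx, hy, sub_ne_zero.2 h]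

theorem A_minor {x z y w : ZMod p} (hxz : x ≠ z) (hyw : y ≠ w) :
    A x y * A z w - A x w * A z y ≠ 0 := by
  by_cases h1 : x = y
  · subst h1
    rw [A_diag, zero_mul, zero_sub, neg_ne_zero]
    exact mul_ne_zero (A_ne_zero hyw) (A_ne_zero hxz.symm)
  by_cases h2 : z = w
  · subst h2
    rw [A_diag, mul_zero, zero_sub, neg_ne_zero]
    exact mul_ne_zero (A_ne_zero hxz) (A_ne_zero hyw.symm)
  by_cases h3 : x = w
  · subst h3
    rw [A_diag, zero_mul, sub_zero]
    exact mul_ne_zero (A_ne_zero h1) (A_ne_zero hxz.symm)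
  by_cases h4 : z = y
  · subst h4
    rw [A_diag, mul_zero, sub_zero]
    exact mul_ne_zero (A_ne_zero hxz) (A_ne_zero h2)
  -- now all four entries are off the diagonal
  by_cases hx : x = 0
  · subst hx
    have hy : y ≠ 0 := fun h => h1 h.symm
    have hw : w ≠ 0 := fun h => h3 h.symm
    have hz : z ≠ 0 := hxz.symm
    rw [A_zero_left hy, A_zero_left hw, A_of_ne hz hw, A_of_ne hz hy]
    have e1 : z - w ≠ 0 := sub_ne_zero.2 h2
    have e2 : z - y ≠ 0 := sub_ne_zero.2 h4
    intro h
    field_simp at h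
    have : z * (w - y) = 0 := by linear_combination h
    rcases mul_eq_zero.1 this with h' | h'
    · exact hz h'
    · exact hyw (sub_eq_zero.1 h').symm
  by_cases hz : z = 0
  · subst hz
    have hy : y ≠ 0 := fun h => h4 h.symm
    have hw : w ≠ 0 := fun h => h2 h.symm
    rw [A_zero_left hy, A_zero_left hw, A_of_ne hx hw, A_of_ne hx hy]
    have e1 : x - w ≠ 0 := sub_ne_zero.2 h3
    have e2 : x - y ≠ 0 := sub_ne_zero.2 h1
    intro h
    field_simp at h
    have : x * (y - w) = 0 := by linear_combination h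
    rcases mul_eq_zero.1 this with h' | h'
    · exact hx h'
    · exact hyw (sub_eq_zero.1 h')
  by_cases hy : y = 0
  · subst hy
    have hw : w ≠ 0 := hyw.symm
    rw [A_zero_right hx, A_zero_right hz, A_of_ne hz hw, A_of_ne hx hw]
    have e1 : z - w ≠ 0 := sub_ne_zero.2 h2
    have e2 : x - w ≠ 0 := sub_ne_zero.2 h3
    intro h
    field_simp at h
    have : w * (x - z) = 0 := by linear_combination h
    rcases mul_eq_zero.1 this with h' | h'
    · exact hw h'
    · exact hxz (sub_eq_zero.1 h')
  by_cases hw : w = 0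
  · subst hw
    rw [A_zero_right hx, A_zero_right hz, A_of_ne hz hy, A_of_ne hx hy]
    have e1 : z - y ≠ 0 := sub_ne_zero.2 h4
    have e2 : x - y ≠ 0 := sub_ne_zero.2 h1
    intro h
    field_simp at h
    have : y * (x - z) = 0 := by linear_combination -h
    rcases mul_eq_zero.1 this with h' | h'
    · exact hy h'
    · exact hxz (sub_eq_zero.1 h')
  rw [A_of_ne hx hy, A_of_ne hz hw, A_of_ne hx hw, A_of_ne hz hy]
  have e1 : x - y ≠ 0 := sub_ne_zero.2 h1
  have e2 : z - w ≠ 0 := sub_ne_zero.2 h2
  have e3 : x - w ≠ 0 := sub_ne_zero.2 h3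
  have e4 : z - y ≠ 0 := sub_ne_zero.2 h4
  intro h
  have h5 : x * z * ((x - z) * (y - w)) = 0 := by
    have h6 : x / (x - y) * (z / (z - w)) - x / (x - w) * (z / (z - y)) =
        (-(x * z * ((x - z) * (y - w)))) / ((x - y) * (z - w) * ((x - w) * (z - y))) := by
      field_simp
      ring
    rw [h6] at h
    have h7 : (x - y) * (z - w) * ((x - w) * (z - y)) ≠ 0 :=
      mul_ne_zero (mul_ne_zero e1 e2) (mul_ne_zero e3 e4)
    have h9 := (div_eq_zero_iff.1 h).resolve_right h7
    linear_combination -h9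
  rcases mul_eq_zero.1 h5 with h6 | h6
  · rcases mul_eq_zero.1 h6 with h7 | h7
    · exact hx h7
    · exact hz h7
  · rcases mul_eq_zero.1 h6 with h7 | h7
    · exact hxz (sub_eq_zero.1 h7)
    · exact hyw (sub_eq_zero.1 h7)

/-! ### Invertibility -/

theorem sum_pow_zero {k : ℕ} (hk : k < p - 1) : ∑ x : ZMod p, x ^ k = 0 :=
  FiniteField.sum_pow_lt_card_sub_one _ _ (by rwa [ZMod.card])

theorem sum_pow_top : ∑ x : ZMod p, x ^ (p - 1) = -1 := by
  have h1 : ∀ x : ZMod p, x ^ (p - 1) = 1 - (if x = 0 then 1 else 0) := by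
    intro x
    rw [ZMod.pow_card_sub_one]
    by_cases hx : x = 0 <;> simp [hx]
  simp_rw [h1]
  rw [Finset.sum_sub_distrib]
  simp

/-- the sums `∑ x^k / (x - y)` -/
theorem C_eq (hp : 2 < p) {y : ZMod p} : ∀ k : ℕ, k ≤ p - 1 →
    ∑ x : ZMod p, x ^ k / (x - y) = - (k : ZMod p) * y ^ (k - 1) := by
  intro k
  induction k with
  | zero =>
    intro _
    simp only [pow_zero, one_div, Nat.cast_zero, neg_zero, zero_mul]
    have h1 : ∑ x : ZMod p, (x - y)⁻¹ = ∑ x : ZMod p, x⁻¹ :=
      Fintype.sum_equiv (Equiv.subRight y) _ _ (fun x => rfl)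
    have h2 : ∑ x : ZMod p, x⁻¹ = ∑ x : ZMod p, x :=
      Fintype.sum_bijective (fun x : ZMod p => x⁻¹) inv_involutive.bijective _ _ (fun x => rfl)
    rw [h1, h2]
    have h3 := sum_pow_zero (p := p) (k := 1) (by omega)
    simpa using h3
  | succ k ih =>
    intro hk
    have h1 := ih (by omega)
    have h2 : ∀ x : ZMod p, x ^ (k + 1) / (x - y) =
        y * (x ^ k / (x - y)) + (x ^ k - (if x = y then y ^ k else 0)) := by
      intro x
      by_cases hxy : x = y
      · subst hxy; simp
      · have : x - y ≠ 0 := sub_ne_zero.2 hxy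
        simp only [hxy, if_false]
        field_simp
        ring
    rw [Finset.sum_congr rfl (fun x _ => h2 x), Finset.sum_add_distrib, ← Finset.mul_sum, h1,
      Finset.sum_sub_distrib, sum_pow_zero (by omega), Finset.sum_ite_eq']
    simp only [Finset.mem_univ, if_true, Nat.add_sub_cancel]
    rcases k with _ | k
    · simp
    · simp only [Nat.add_sub_cancel]
      push_cast
      ring

theorem C_top (hp : 2 < p) {y : ZMod p} (hy : y ≠ 0) :
    ∑ x : ZMod p, x ^ p / (x - y) = -1 := by
  have h1 := C_eq hp (y := y) (p - 1) le_rfl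
  have h2 : ∀ x : ZMod p, x ^ p / (x - y) =
      y * (x ^ (p - 1) / (x - y)) + (x ^ (p - 1) - (if x = y then y ^ (p - 1) else 0)) := by
    intro x
    have e : x ^ p = x ^ (p - 1) * x := by rw [← pow_succ]; congr 1; omega
    rw [e]
    by_cases hxy : x = y
    · subst hxy; simp
    · have : x - y ≠ 0 := sub_ne_zero.2 hxy
      simp only [hxy, if_false]
      field_simp
      ring
  rw [Finset.sum_congr rfl (fun x _ => h2 x), Finset.sum_add_distrib, ← Finset.mul_sum, h1,
    Finset.sum_sub_distrib, sum_pow_top, Finset.sum_ite_eq']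
  simp only [Finset.mem_univ, if_true]
  have h3 : y ^ (p - 1) = 1 := by rw [ZMod.pow_card_sub_one]; simp [hy]
  have h4 : y * y ^ (p - 1 - 1) = 1 := by
    rw [← pow_succ']; rw [show p - 1 - 1 + 1 = p - 1 by omega]; exact h3
  have h5 : ((p - 1 : ℕ) : ZMod p) = -1 := by
    rw [Nat.cast_sub (by omega)]; simp
  rw [h5, h3]
  linear_combination h4

theorem A_inj (v : ZMod p → ZMod p) (h : ∀ x, ∑ y, A x y * v y = 0) : ∀ a, v a = 0 := by
  have h0 : ∑ y : ZMod p, v y - v 0 = 0 := by
    have h' := h 0
    have e : ∀ y : ZMod p, A 0 y * v y = v y - (if y = 0 then v 0 else 0) := by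
      intro y
      by_cases hy : y = 0
      · subst hy; simp [A_diag]
      · simp [A_zero_left hy, hy]
    rw [Finset.sum_congr rfl (fun y _ => e y), Finset.sum_sub_distrib, Finset.sum_ite_eq'] at h'
    simpa using h'
  have hp2 : 2 ≤ p := (Fact.out : p.Prime).two_le
  rcases hp2.eq_or_lt with hp | hp
  · subst hp
    have e0 : ∑ y : ZMod 2, v y = v 0 + v 1 := Fin.sum_univ_two v
    have hv1 : v 1 = 0 := by rw [e0] at h0; linear_combination h0
    have e1 : ∑ y : ZMod 2, A 1 y * v y = A 1 0 * v 0 + A 1 1 * v 1 :=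
      Fin.sum_univ_two (fun y : ZMod 2 => A 1 y * v y)
    have h1 := h 1
    rw [e1, A_diag, A_zero_right one_ne_zero] at h1
    have hv0 : v 0 = 0 := by linear_combination h1
    intro a
    fin_cases a
    · exact hv0
    · exact hv1
  · have key : ∀ k : ℕ, ∑ y : ZMod p, (∑ x : ZMod p, x ^ k * A x y) * v y = 0 := by
      intro k
      have : ∑ y : ZMod p, (∑ x : ZMod p, x ^ k * A x y) * v y =
          ∑ x : ZMod p, x ^ k * ∑ y : ZMod p, A x y * v y := by
        simp_rw [Finset.sum_mul, Finset.mul_sum]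
        rw [Finset.sum_comm]
        refine Finset.sum_congr rfl fun x _ => Finset.sum_congr rfl fun y _ => ?_
        ring
      rw [this]
      simp [h]
    have col0 : ∀ k : ℕ, 1 ≤ k → ∑ x : ZMod p, x ^ k * A x 0 = ∑ x : ZMod p, x ^ k := by
      intro k hk
      refine Finset.sum_congr rfl fun x _ => ?_
      by_cases hx : x = 0
      · subst hx; simp [show k ≠ 0 by omega]
      · rw [A_zero_right hx, mul_one]
    have coly : ∀ k : ℕ, 1 ≤ k → ∀ y : ZMod p, y ≠ 0 →
        ∑ x : ZMod p, x ^ k * A x y = ∑ x : ZMod p, x ^ (k + 1) / (x - y) := by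
      intro k hk y hy
      refine Finset.sum_congr rfl fun x _ => ?_
      by_cases hx : x = 0
      · subst hx; simp [show k ≠ 0 by omega]
      · rw [A_of_ne hx hy]; ring
    have split : ∀ g : ZMod p → ZMod p, ∑ y, g y = g 0 + ∑ y, (if y = 0 then 0 else g y) := by
      intro g
      have : ∀ y : ZMod p, g y = (if y = 0 then g 0 else 0) + (if y = 0 then 0 else g y) := by
        intro y; by_cases hy : y = 0 <;> simp [hy]
      rw [Finset.sum_congr rfl (fun y _ => this y), Finset.sum_add_distrib, Finset.sum_ite_eq']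
      simp
    -- the middle moments
    have mom : ∀ k : ℕ, 1 ≤ k → k < p - 1 → ∑ y : ZMod p, y ^ k * v y = 0 := by
      intro k hk1 hk2
      have h1 := key k
      rw [split] at h1
      rw [col0 k hk1, sum_pow_zero hk2, zero_mul, zero_add] at h1
      have h2 : ∀ y : ZMod p, (if y = 0 then 0 else (∑ x : ZMod p, x ^ k * A x y) * v y) =
          - ((k + 1 : ℕ) : ZMod p) * (y ^ k * v y) := by
        intro y
        by_cases hy : y = 0
        · subst hy; simp [show k ≠ 0 by omega]
        · rw [if_neg hy, coly k hk1 y hy, C_eq hp (k + 1) (by omega), Nat.add_sub_cancel]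
          ring
      rw [Finset.sum_congr rfl (fun y _ => h2 y), ← Finset.mul_sum] at h1
      rcases mul_eq_zero.1 h1 with h3 | h3
      · exfalso
        rw [neg_eq_zero, ZMod.natCast_eq_zero_iff] at h3
        have := Nat.le_of_dvd (by omega) h3
        omega
      · exact h3
    have v0 : v 0 = 0 := by
      have h1 := key (p - 1)
      rw [split] at h1
      rw [col0 (p - 1) (by omega), sum_pow_top] at h1
      have h2 : ∀ y : ZMod p, (if y = 0 then 0 else (∑ x : ZMod p, x ^ (p - 1) * A x y) * v y) =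
          - (if y = 0 then 0 else v y) := by
        intro y
        by_cases hy : y = 0
        · simp [hy]
        · rw [if_neg hy, if_neg hy, coly (p - 1) (by omega) y hy,
            show p - 1 + 1 = p by omega, C_top hp hy]
          ring
      rw [Finset.sum_congr rfl (fun y _ => h2 y), Finset.sum_neg_distrib] at h1
      have h3 := split v
      linear_combination -h1 + h3 - h0
    have mom0 : ∑ y : ZMod p, v y = 0 := by rw [v0] at h0; linear_combination h0
    have momall : ∀ k : ℕ, k ≤ p - 1 → ∑ y : ZMod p, y ^ k * v y = 0 := by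
      intro k hk
      rcases Nat.eq_zero_or_pos k with rfl | hk1
      · simpa using mom0
      rcases hk.lt_or_eq with h1 | h1
      · exact mom k hk1 h1
      · subst h1
        have h2 : ∀ y : ZMod p, y ^ (p - 1) * v y = v y := by
          intro y
          rw [ZMod.pow_card_sub_one]
          by_cases hy : y = 0
          · simp [hy, v0]
          · simp [hy]
        rw [Finset.sum_congr rfl (fun y _ => h2 y)]
        exact mom0
    intro a
    have h1 : ∀ y : ZMod p, (if y = a then v y else 0) = v y - (y + -a) ^ (p - 1) * v y := by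
      intro y
      rw [ZMod.pow_card_sub_one]
      by_cases hy : y = a
      · subst hy; simp
      · have : y + -a ≠ 0 := by rw [← sub_eq_add_neg]; exact sub_ne_zero.2 hy
        simp [hy, this]
    have h2 : v a = ∑ y : ZMod p, (if y = a then v y else 0) := by
      rw [Finset.sum_ite_eq']; simp
    rw [h2, Finset.sum_congr rfl (fun y _ => h1 y), Finset.sum_sub_distrib, mom0, zero_sub,
      neg_eq_zero]
    simp_rw [add_pow, Finset.sum_mul]
    rw [Finset.sum_comm]
    refine Finset.sum_eq_zero fun m hm => ?_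
    have hm' : m ≤ p - 1 := by have := Finset.mem_range.1 hm; omega
    have h3 := momall m hm'
    calc ∑ y : ZMod p, y ^ m * (-a) ^ (p - 1 - m) * ((p - 1).choose m : ZMod p) * v y
        = ((-a) ^ (p - 1 - m) * ((p - 1).choose m : ZMod p)) * ∑ y : ZMod p, y ^ m * v y := by
          rw [Finset.mul_sum]
          refine Finset.sum_congr rfl fun y _ => ?_
          ring
      _ = 0 := by rw [h3, mul_zero]

theorem A_isUnit : IsUnit (Matrix.of (fun x y : ZMod p => A x y)) := by
  rw [Matrix.isUnit_iff_isUnit_det, isUnit_iff_ne_zero]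
  intro hdet
  obtain ⟨v, hv, hv2⟩ := Matrix.exists_mulVec_eq_zero_iff.2 hdet
  apply hv
  funext a
  refine A_inj v (fun x => ?_) a
  have := congrFun hv2 x
  simpa [Matrix.mulVec, dotProduct] using this

end proof

/-- A skew-symmetric linear `(2,p,p)`-AONT exists for every prime `p`; in particular it exists for
infinitely many primes. -/
theorem result : (∀ p : ℕ, ∀ _ : Fact p.Prime, Exists p) ∧
    {p : ℕ | ∃ _ : Fact p.Prime, Exists p}.Infinite := by
  have main : ∀ p : ℕ, ∀ _ : Fact p.Prime, Exists p := by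
    intro p hp
    have : NeZero p := ⟨(Fact.out : p.Prime).ne_zero⟩
    have hfin : Function.Injective (fun i : Fin p => ((i : ℕ) : ZMod p)) := by
      intro i j hij
      have := (ZMod.natCast_eq_natCast_iff' _ _ _).1 hij
      rw [Nat.mod_eq_of_lt i.2, Nat.mod_eq_of_lt j.2] at this
      exact Fin.ext this
    have hbij : Function.Bijective (fun i : Fin p => ((i : ℕ) : ZMod p)) := by
      rw [Fintype.bijective_iff_injective_and_card]
      exact ⟨hfin, by simp [ZMod.card]⟩
    let e : Fin p ≃ ZMod p := Equiv.ofBijective _ hbij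
    have he : ∀ i : Fin p, e i = ((i : ℕ) : ZMod p) := fun i => rfl
    have he0 : e 0 = 0 := by rw [he]; simp
    have hne : ∀ i : Fin p, i ≠ 0 → e i ≠ 0 := by
      intro i hi h
      exact hi (e.injective (h.trans he0.symm))
    refine ⟨Matrix.of (fun i j => A (e i) (e j)), ⟨?_, ?_⟩, ⟨?_, ?_, ?_⟩, 1, ?_⟩
    · have h1 : (Matrix.of (fun i j => A (e i) (e j)) : Matrix (Fin p) (Fin p) (ZMod p)) =
          (Matrix.of (fun x y : ZMod p => A x y)).submatrix e e := rfl
      rw [h1, Matrix.isUnit_iff_isUnit_det, Matrix.det_submatrix_equiv_self,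
        ← Matrix.isUnit_iff_isUnit_det]
      exact A_isUnit
    · intro i k hik j l hjl
      rw [Matrix.isUnit_iff_isUnit_det, isUnit_iff_ne_zero, Matrix.det_fin_two]
      exact A_minor (e.injective.ne hik) (e.injective.ne hjl)
    · intro i; exact A_diag _
    · intro j hj
      change A (e 0) (e j) = 1
      rw [he0]; exact A_zero_left (hne j hj)
    · intro i hi
      change A (e i) (e 0) = 1
      rw [he0]; exact A_zero_right (hne i hi)
    · intro i j hi hj hij
      exact A_skew (hne i hi) (hne j hj) (e.injective.ne hij)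
  refine ⟨main, ?_⟩
  have h1 : {p : ℕ | ∃ _ : Fact p.Prime, Exists p} = {p : ℕ | p.Prime} := by
    ext p
    constructor
    · rintro ⟨hp, _⟩; exact hp.out
    · intro hp; exact ⟨⟨hp⟩, main p ⟨hp⟩⟩
  rw [h1]
  exact Nat.infinite_setOfPred_prime

end Pool.Agent.Results.MP_6c8620_co.EveryPrime
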